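import Pool.Agent.N831.LP.K

/-!
# MP_553913_nt: Li coefficients with a large base point for the L-functions of elliptic curves

`E : y² = x³ + a x + b` is an elliptic curve over `ℚ` of conductor `N`, `Λ` its completed L-function, an entire function
with `Λ(2 - s) = ± Λ(s)`. By the criterion of Li in the form of Bombieri and Lagarias (Lagarias and others for
automorphic L-functions) the Riemann hypothesis for `L(E, s)` is equivalent to the positivity of the numbers
`li Λ a n = ∑_ρ Re (1 - ((ρ - a) / (ρ + a - 2))^n)` for all `n ≥ 1`, for any one base point `a ≥ 3/2`.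

We prove without any hypothesis, for every `E`: for every `κ < 2` all coefficients with `n ≤ κ a log a` are positive, and
at least `c n a log a`, for all large `a`. The constant `2` can be improved if and only if `Λ` has a zero-free
half-plane `Re s > 1 + d` with `d < 1/2`; a zero with real part larger than `1 + 1/κ` produces a negative coefficient
with `n ≤ κ a log a` for ALL large `a`. The Riemann hypothesis for `L(E, s)` holds if and only if every constant `κ` is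
admissible.

Proof: modules `Pool.Agent.N831.LI` (the argument for abstract zeros, handed in for the zeta function: MP_db1c88_nt) and
`Pool.Agent.N831.LP`. The positivity needs a density theorem with exponent `(1 - 2δ)/(1 - δ)` for the zeros with real
part at least `1 + δ`: for `δ → 1/2` the contribution of `T^κδ` must be compensated. It is proved here from the mean
square of the mollified function on the line (a large sieve argument to the right, and the mollified second moment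
near the line of the modules `Pool.Agent.Y671`, `Pool.Agent.Y24.GL`) by Halasz's and Montgomery's zero detection; the
dual function takes care of the zeros below the real axis.
-/

set_option autoImplicit false

open Complex UpperHalfPlane MatrixGroups CongruenceSubgroup Filter

namespace Pool.Agent.N831.Shelf.Li553913

/-- The coefficient `a_p` of `E : y² = x³ + a x + b` at a prime `p ∤ 2 (4a³ + 27b²)`: `p` minus the
number of pairs `(x, y)` modulo `p` with `y² ≡ x³ + a x + b (mod p)`. -/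
noncomputable def ap (a b : ℤ) (p : ℕ) : ℤ :=
  (p : ℤ) - (((Finset.range p ×ˢ Finset.range p).filter
    (fun xy : ℕ × ℕ => (p : ℤ) ∣ (xy.2 : ℤ) ^ 2 -
      ((xy.1 : ℤ) ^ 3 + a * (xy.1 : ℤ) + b))).card : ℤ)

/-- The `n`-th Fourier coefficient of `f`. -/
noncomputable def coef {N : ℕ} (f : CuspForm (Gamma0 N : Subgroup (GL (Fin 2) ℝ)) 2) (n : ℕ) : ℂ :=
  (qExpansion 1 f).coeff n

/-- `f ∈ S_2(Γ₀(N))` is the newform of the elliptic curve `E : y² = x³ + a x + b` of conductor `N` and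
root number `w`: the Fourier coefficients `c(n)` of `f` are real with `c(1) = 1`, they satisfy the
Hecke relations `c(mn) = c(m) c(n)` for coprime `m`, `n` and `c(p^(j+2)) = c(p) c(p^(j+1)) - p c(p^j)`
(without the last term if `p ∣ N`), `f(-1/(Nτ)) = -w N τ² f(τ)`, `c(p) = a_p(E)` for all primes
`p ∤ 2 (4a³ + 27b²)`, `|c(p)| ≤ 2 √p` for all `p ∤ N` (Hasse) and `c(p) = 0, 1, -1` for `p ∣ N`.
By the modularity theorem (Wiles, Taylor-Wiles, Breuil-Conrad-Diamond-Taylor) it exists for every `E`. -/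
structure IsFormOf (a b : ℤ) (N : ℕ) (f : CuspForm (Gamma0 N : Subgroup (GL (Fin 2) ℝ)) 2) (w : ℝ) :
    Prop where
  one : coef f 1 = 1
  real : ∀ n, (coef f n).im = 0
  mul : ∀ m n : ℕ, Nat.Coprime m n → coef f (m * n) = coef f m * coef f n
  pow : ∀ p j : ℕ, p.Prime → coef f (p ^ (j + 2)) = coef f p * coef f (p ^ (j + 1)) -
      (if p ∣ N then 0 else (p : ℂ) * coef f (p ^ j))
  sign : w = 1 ∨ w = -1
  fricke : ∀ τ τ' : ℍ, (τ' : ℂ) * ((N : ℂ) * (τ : ℂ)) = -1 →
    f τ' = -(w : ℂ) * (N : ℂ) * (τ : ℂ) ^ 2 * f τ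
  points : ∀ p : ℕ, p.Prime → ¬ (p : ℤ) ∣ 2 * (4 * a ^ 3 + 27 * b ^ 2) → coef f p = (ap a b p : ℂ)
  good : ∀ p : ℕ, p.Prime → ¬ p ∣ N → ‖coef f p‖ ≤ 2 * Real.sqrt p
  bad : ∀ p : ℕ, p.Prime → p ∣ N → coef f p = 0 ∨ coef f p = 1 ∨ coef f p = -1

/-- `Λ` is the completed L-function of `f`: it is entire and
`Λ(s) = N^(s/2) (2π)^(-s) Γ(s) ∑ c(n) n^(-s)` for `Re s > 2`. -/
def IsCompleted {N : ℕ} (f : CuspForm (Gamma0 N : Subgroup (GL (Fin 2) ℝ)) 2) (Λ : ℂ → ℂ) : Prop :=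
  Differentiable ℂ Λ ∧ ∀ s : ℂ, 2 < s.re →
    Λ s = ((Real.sqrt N / (2 * Real.pi) : ℝ) : ℂ) ^ s * Complex.Gamma s *
      ∑' n : ℕ, coef f (n + 1) * ((n + 1 : ℕ) : ℂ) ^ (-s)

/-- The term of the zero `ρ` in the Li coefficient with base point `a`, with the multiplicity of `ρ`. -/
noncomputable def term (Λ : ℂ → ℂ) (a : ℝ) (n : ℕ) (ρ : ℂ) : ℝ :=
  (analyticOrderNatAt Λ ρ : ℝ) * (1 - ((ρ - a) / (ρ + a - 2)) ^ n).re

/-- The Li coefficient with base point `a`: the sum over the zeros `ρ` of `Λ`, with multiplicity, of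
`Re (1 - ((ρ - a) / (ρ + a - 2)) ^ n)`; `a = 3/2` is the usual choice. -/
noncomputable def li (Λ : ℂ → ℂ) (a : ℝ) (n : ℕ) : ℝ := ∑' ρ : {ρ : ℂ // Λ ρ = 0}, term Λ a n ρ

/-- The coefficients with `n ≤ κ a log a` are at least `c n a log a`, for all large `a`. -/
def Large (Λ : ℂ → ℂ) (κ : ℝ) : Prop := ∃ c : ℝ, 0 < c ∧ ∀ᶠ a : ℝ in atTop, ∀ n : ℕ, 1 ≤ n →
  (n : ℝ) ≤ κ * a * Real.log a → c * n * a * Real.log a ≤ li Λ a n

/-- The coefficients with `n ≤ κ a log a` are nonnegative, for arbitrarily large `a`. -/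
def SometimesNonneg (Λ : ℂ → ℂ) (κ : ℝ) : Prop := ∃ᶠ a : ℝ in atTop, ∀ n : ℕ, 1 ≤ n →
  (n : ℝ) ≤ κ * a * Real.log a → 0 ≤ li Λ a n

/-- `Λ` has no zeros with `Re s > θ`. -/
def ZeroFree (Λ : ℂ → ℂ) (θ : ℝ) : Prop := ∀ s : ℂ, θ < s.re → Λ s ≠ 0

/-- **Main theorem.** Let `Λ` be the completed L-function of an elliptic curve over `ℚ`. It exists, is unique and satisfies
the functional equation; the sums `li Λ a n` converge absolutely for `a ≥ 3`.

(1) For `κ < 2` the coefficients with `n ≤ κ a log a` are at least `c n a log a` for all large `a`. (2) If `Λ` has no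
zeros with `Re s > 1 + d`, `0 < d < 1/2`, then this holds for `κ < 1/(2 d (1 - d))`, a number larger than `2`. (3) If `Λ`
has a zero with `Re s > 1 + 1/κ`, then for ALL large `a` there is a negative coefficient with `n ≤ κ a log a`. (4), (5)
Some `κ > 2` is admissible, if only for arbitrarily large `a` and nonnegativity, if and only if `Λ` has a zero-free
half-plane `Re s > 1 + d`, `d < 1/2`. (6), (7) All `κ` are admissible if and only if the Riemann hypothesis for
`L(E, s)` holds. -/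
theorem result (a b : ℤ) (N : ℕ) [NeZero N] (f : CuspForm (Gamma0 N : Subgroup (GL (Fin 2) ℝ)) 2) (w : ℝ)
    (_ : 4 * a ^ 3 + 27 * b ^ 2 ≠ 0) (hf : IsFormOf a b N f w) :
    ∃ Λ : ℂ → ℂ, IsCompleted f Λ ∧ (∀ Λ', IsCompleted f Λ' → Λ' = Λ) ∧
      (∀ s : ℂ, Λ (2 - s) = (w : ℂ) * Λ s) ∧
      (∀ a : ℝ, 3 ≤ a → ∀ n : ℕ, Summable fun ρ : {ρ : ℂ // Λ ρ = 0} => term Λ a n ρ) ∧
      (∀ κ : ℝ, κ < 2 → Large Λ κ) ∧
      (∀ d : ℝ, 0 < d → d < 1 / 2 → ZeroFree Λ (1 + d) → ∀ κ : ℝ, κ < 1 / (2 * d * (1 - d)) → Large Λ κ) ∧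
      (∀ (κ : ℝ) (s : ℂ), 0 < κ → Λ s = 0 → 1 + 1 / κ < s.re →
        ∀ᶠ a : ℝ in atTop, ∃ n : ℕ, 1 ≤ n ∧ (n : ℝ) ≤ κ * a * Real.log a ∧ li Λ a n < 0) ∧
      ((∃ κ : ℝ, 2 < κ ∧ SometimesNonneg Λ κ) ↔ ∃ d : ℝ, d < 1 / 2 ∧ ZeroFree Λ (1 + d)) ∧
      ((∃ κ : ℝ, 2 < κ ∧ Large Λ κ) ↔ ∃ d : ℝ, d < 1 / 2 ∧ ZeroFree Λ (1 + d)) ∧
      ((∀ s : ℂ, Λ s = 0 → s.re = 1) ↔ ∀ κ : ℝ, 0 < κ → SometimesNonneg Λ κ) ∧
      ((∀ s : ℂ, Λ s = 0 → s.re = 1) ↔ ∀ κ : ℝ, Large Λ κ) := by
  have hf' : Pool.Agent.W169.HF.IsForm N f w :=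
    { one := hf.one
      real := hf.real
      mul := hf.mul
      pow := hf.pow
      sign := hf.sign
      fricke := hf.fricke
      good := hf.good
      bad := fun p hp hpN => by
        have h1 : (1 : ℝ) ≤ Real.sqrt p := by
          rw [Real.one_le_sqrt]
          exact_mod_cast hp.one_le
        have h2 : ‖coef f p‖ ≤ 1 := by
          rcases hf.bad p hp hpN with h | h | h <;> simp [h]
        exact h2.trans h1 }
  obtain ⟨Λ, hΛ, hfe, -, -⟩ := Pool.Agent.W174.HF.nf1 N f w hf'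
  obtain ⟨v, hv, hP⟩ : ∃ v : ℂ, v ≠ 0 ∧ Pool.Agent.N831.LP.P2 1 (fun z => v * Λ (((1 : ℝ) : ℂ) + z)) := by
    obtain ⟨X, v, h1, h2, h3⟩ := Pool.Agent.N831.LP.p2_fac (q := 1) (χ := 1) hf'
      DirichletCharacter.isPrimitive_one_level_one (Nat.coprime_one_left N)
    obtain ⟨Λ0, k1, k2, -, k4⟩ := Pool.Agent.N831.LP.exists_Lam2 h1 1
      (G := fun s => ((Real.sqrt N / (2 * Real.pi) : ℝ) : ℂ) ^ s * Complex.Gamma s *
        ∑' n : ℕ, coef f (n + 1) * ((n + 1 : ℕ) : ℂ) ^ (-s)) h2 (σ := 3 / 2) (fun s hs => by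
        rw [Complex.ofReal_one, h3 s hs]
        unfold Pool.Agent.W355.UN.facE
        rw [Nat.cast_one, mul_one]
        congr 2
        refine tsum_congr fun n => ?_
        rw [MulChar.one_apply (isUnit_of_subsingleton _), mul_one]
        rfl)
    have e : Λ0 = Λ := Pool.Agent.R838.TW.uniq hΛ.1 k1 ⟨2, hΛ.2⟩ ⟨3 / 2, k2⟩
    subst e
    exact ⟨v, h2, k4⟩
  have hκ : (1 : ℝ) / 2 ≤ 1 := by norm_num
  have e2 : (2 : ℂ) * ((1 : ℝ) : ℂ) = 2 := by push_cast; ring
  refine ⟨Λ, hΛ, fun Λ' h' => Pool.Agent.W169.HF.completed_unique h' hΛ, hfe, fun a ha n => ?_, ?_⟩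
  · have h1 := Pool.Agent.N831.LP.summable hκ hv hP (a := a) (by linarith) n
    rw [e2] at h1
    exact h1
  · exact Pool.Agent.N831.LP.main2 hκ hv hP (L := li Λ) fun a n => by
      rw [e2]
      rfl

end Pool.Agent.N831.Shelf.Li553913
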