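import Pool.Agent.N831.LP.K

/-!
# MP_7193be_nt: Li coefficients of Hasse-Weil L-functions with a large base point

Let `X` be smooth and projective over `ℤ[1/N]`, `i ≥ 0`, and suppose that `H^i(X)` is (up to semisimplification) a sum of
parts `V(f) (-r)`, where `f` is a newform of any weight `k ≥ 1`, any level and any nebentypus, and `k + 2r = i + 1`.
Examples: `H^1` of the modular curves `X_0(M)`, `X_1(M)`, of all elliptic curves over `ℚ`, of all products of abelian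
varieties over `ℚ` of `GL_2`-type and of their Weil restrictions from abelian number fields; `H^3` of rigid Calabi-Yau
threefolds over `ℚ`; any Tate twists and any multiplicities are allowed. Let `Λ = Λ_A(i; X, s)`. Statement (d) says that
all zeros of `Λ` are on the line `Re s = (i + 1)/2`. By the criterion of Li in the form of Bombieri and Lagarias
(Lagarias and others for automorphic L-functions) it is equivalent to the positivity of the numbers
`li Λ a n = ∑_ρ Re (1 - ((ρ - a) / (ρ + a - i - 1))^n)` for all `n ≥ 1`, for any one base point `a ≥ i/2 + 1`.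

We prove for `Λ = Λ_A(i; X, s)`, without any hypothesis: for every `κ < 2` all coefficients with `n ≤ κ a log a` are
positive, and at least `c n a log a`, for all large `a`. The constant `2`, which does not depend on `X` or `i`, can be
improved if and only if `Λ` has a zero-free half-plane `Re s > (i + 1)/2 + d` with `d < 1/2`; a zero with real part
larger than `(i + 1)/2 + 1/κ` produces a negative coefficient with `n ≤ κ a log a` for ALL large `a`. (d) holds if and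
only if every constant `κ` is admissible.

Proof: modules `Pool.Agent.N831.LI` (the argument for abstract zeros, handed in for the zeta function: MP_db1c88_nt) and
`Pool.Agent.N831.LP`. The positivity needs for the parts a density theorem with exponent `(1 - 2δ)/(1 - δ)` for the
zeros with real part at least `(i + 1)/2 + δ`. It is proved here from the mean square of the mollified function (a large
sieve argument to the right of the strip, and the mollified second moment near the line of the modules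
`Pool.Agent.Y671`, `Pool.Agent.Y24.GL`; nebentypus: `Pool.Agent.R838.NB`) by Halasz's and Montgomery's zero detection;
the dual function takes care of the zeros below the real axis.
-/

set_option autoImplicit false

open UpperHalfPlane MatrixGroups CongruenceSubgroup Filter

namespace Pool.Agent.N831.Shelf.Li7193be

/-! ### The constituents of the cohomology -/

/-- The `n`-th Fourier coefficient `a(n)` of `f(τ) = ∑ a(n) e^(2πinτ)`. -/
noncomputable def a {M : ℕ} {k : ℤ} (f : CuspForm (Gamma1 M : Subgroup (GL (Fin 2) ℝ)) k) (n : ℕ) :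
    ℂ := (qExpansion 1 f).coeff n

/-- `f` is a newform of weight `k`, level `M`, nebentypus `ψ`; the properties that are used:
`f(γτ) = ψ(d) (cτ+d)^k f(τ)` for `γ = (a b; c d)` in `Γ₀(M)`, `a(1) = 1`, the Hecke relations
`a(mn) = a(m) a(n)` for coprime `m`, `n` and `a(p^(j+2)) = a(p) a(p^(j+1)) - ψ(p) p^(k-1) a(p^j)`,
`conj a(n) = conj ψ(n) a(n)` for `n` prime to `M`, and the Fricke involution maps `f` to a multiple
of the form with the conjugate coefficients,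
`f(-1/(Mτ)) = η (√M τ/i)^k conj (f(-conj τ))` with `|η| = 1`. -/
structure IsNewform (M : ℕ) (k : ℤ) (ψ : DirichletCharacter ℂ M)
    (f : CuspForm (Gamma1 M : Subgroup (GL (Fin 2) ℝ)) k) : Prop where
  neb : ∀ γ : SL(2, ℤ), γ ∈ Gamma0 M → ∀ τ : ℍ,
    f (γ • τ) = ψ ((γ 1 1 : ℤ) : ZMod M) * denom γ τ ^ k * f τ
  one : a f 1 = 1
  mul : ∀ m n : ℕ, Nat.Coprime m n → a f (m * n) = a f m * a f n
  pow : ∀ p j : ℕ, p.Prime → a f (p ^ (j + 2)) = a f p * a f (p ^ (j + 1)) -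
    ψ (p : ZMod M) * (p : ℂ) ^ (k - 1) * a f (p ^ j)
  conj : ∀ n : ℕ, Nat.Coprime n M → (starRingEnd ℂ) (a f n) =
    (starRingEnd ℂ) (ψ (n : ZMod M)) * a f n
  fricke : ∃ η : ℂ, ‖η‖ = 1 ∧ ∀ τ τ' τc : ℍ, (τ' : ℂ) * ((M : ℂ) * (τ : ℂ)) = -1 →
    (τc : ℂ) = -(starRingEnd ℂ) (τ : ℂ) →
    f τ' = η * (((Real.sqrt M : ℝ) : ℂ) * (τ : ℂ) / Complex.I) ^ k * (starRingEnd ℂ) (f τc)

/-- A part `V(f) (-r)` of a cohomology group of degree `i`: a newform `f` of level `M`, weight `k` and nebentypus `ψ`,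
and a Tate twist `(-r)` with `k + 2r = i + 1`. -/
structure Part (i : ℕ) where
  M : ℕ
  k : ℕ
  r : ℕ
  ψ : DirichletCharacter ℂ M
  f : CuspForm (Gamma1 M : Subgroup (GL (Fin 2) ℝ)) (k : ℤ)
  M_pos : 1 ≤ M
  k_pos : 1 ≤ k
  newform : IsNewform M k ψ f
  weight : k + 2 * r = i + 1

/-- The polynomial `P_i(X(p), T)` at `T = p^(-s)` for the sum `V` of the parts `π_0, …, π_n`:
`∏_j (1 - a_j(p) p^(r_j - s) + ψ_j(p) p^(i - 2s))`, where `ψ_j(p) = 0` for `p ∣ M_j` (for the bad `p`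
this is the polynomial of the Frobenius on the inertia invariants, so that `P(p, s)⁻¹ = L_p(i; X, s)`). -/
noncomputable def P {i n : ℕ} (π : Fin (n + 1) → Part i) (p : ℕ) (s : ℂ) : ℂ :=
  ∏ j, (1 - a (π j).f p * (p : ℂ) ^ (((π j).r : ℂ) - s) +
    (π j).ψ (p : ZMod (π j).M) * (p : ℂ) ^ ((i : ℂ) - 2 * s))

/-- The factor `∏_j (√M_j / 2π)^s Γ(s - r_j)`, up to a constant `A^(s/2) ∏_j Γ_ℂ(s - r_j)` with the conductor
`A = ∏_j M_j`. -/
noncomputable def gam {i n : ℕ} (π : Fin (n + 1) → Part i) (s : ℂ) : ℂ :=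
  ∏ j, (((Real.sqrt (π j).M / (2 * Real.pi) : ℝ) : ℂ) ^ s * Complex.Gamma (s - (π j).r))

/-- `Λ` is (up to a constant) the completed Hasse-Weil L-function `Λ_A(i; X, s)` with
`H^i(X) = π_0 ⊕ … ⊕ π_n`: it is entire and for `Re s > i/2 + 1` it is the product of `gam(s)` and the Euler product
over all primes of `P(p, s)⁻¹`. -/
def IsCompleted {i n : ℕ} (π : Fin (n + 1) → Part i) (Λ : ℂ → ℂ) : Prop :=
  Differentiable ℂ Λ ∧ ∀ s : ℂ, (i : ℝ) / 2 + 1 < s.re → ∃ L : ℂ,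
    HasProd (fun p : Nat.Primes => (P π p s)⁻¹) L ∧ Λ s = gam π s * L

/-! ### Li coefficients -/

/-- The term of the zero `ρ` in the Li coefficient with base point `a`, with the multiplicity of `ρ`. -/
noncomputable def term (i : ℕ) (Λ : ℂ → ℂ) (a : ℝ) (n : ℕ) (ρ : ℂ) : ℝ :=
  (analyticOrderNatAt Λ ρ : ℝ) * (1 - ((ρ - a) / (ρ + a - (i + 1))) ^ n).re

/-- The Li coefficient with base point `a`: the sum over the zeros `ρ` of `Λ`, with multiplicity, of
`Re (1 - ((ρ - a) / (ρ + a - i - 1)) ^ n)`; `a = i/2 + 1` is the usual choice. -/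
noncomputable def li (i : ℕ) (Λ : ℂ → ℂ) (a : ℝ) (n : ℕ) : ℝ := ∑' ρ : {ρ : ℂ // Λ ρ = 0}, term i Λ a n ρ

/-- The coefficients with `n ≤ κ a log a` are at least `c n a log a`, for all large `a`. -/
def Large (i : ℕ) (Λ : ℂ → ℂ) (κ : ℝ) : Prop := ∃ c : ℝ, 0 < c ∧ ∀ᶠ a : ℝ in atTop, ∀ n : ℕ, 1 ≤ n →
  (n : ℝ) ≤ κ * a * Real.log a → c * n * a * Real.log a ≤ li i Λ a n

/-- The coefficients with `n ≤ κ a log a` are nonnegative, for arbitrarily large `a`. -/
def SometimesNonneg (i : ℕ) (Λ : ℂ → ℂ) (κ : ℝ) : Prop := ∃ᶠ a : ℝ in atTop, ∀ n : ℕ, 1 ≤ n →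
  (n : ℝ) ≤ κ * a * Real.log a → 0 ≤ li i Λ a n

/-- `Λ` has no zeros with `Re s > θ`. -/
def ZeroFree (Λ : ℂ → ℂ) (θ : ℝ) : Prop := ∀ s : ℂ, θ < s.re → Λ s ≠ 0

/-- **Main theorem.** Let `Λ` be the completed Hasse-Weil L-function with the parts `π_0, …, π_n`. It exists, is
unique and satisfies the functional equation; the sums `li Λ a n` converge absolutely for `a ≥ (i + 1)/2 + 2`.

(1) For `κ < 2` the coefficients with `n ≤ κ a log a` are at least `c n a log a` for all large `a`. (2) If `Λ` has no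
zeros with `Re s > (i + 1)/2 + d`, `0 < d < 1/2`, then this holds for `κ < 1/(2 d (1 - d))`, a number larger than `2`.
(3) If `Λ` has a zero with `Re s > (i + 1)/2 + 1/κ`, then for ALL large `a` there is a negative coefficient with
`n ≤ κ a log a`. (4), (5) Some `κ > 2` is admissible, if only for arbitrarily large `a` and nonnegativity, if and only
if `Λ` has a zero-free half-plane `Re s > (i + 1)/2 + d`, `d < 1/2`. (6), (7) All `κ` are admissible if and only if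
all zeros of `Λ` are on the line `Re s = (i + 1)/2`. -/
theorem result {i n : ℕ} (π : Fin (n + 1) → Part i) :
    ∃ Λ : ℂ → ℂ, IsCompleted π Λ ∧ (∀ Λ' : ℂ → ℂ, IsCompleted π Λ' → Λ' = Λ) ∧
      (∃ W : ℂ, ‖W‖ = 1 ∧ ∀ s : ℂ, Λ (i + 1 - s) = W * (starRingEnd ℂ) (Λ ((starRingEnd ℂ) s))) ∧
      (∀ a : ℝ, ((i : ℝ) + 1) / 2 + 2 ≤ a → ∀ n : ℕ, Summable fun ρ : {ρ : ℂ // Λ ρ = 0} => term i Λ a n ρ) ∧
      (∀ κ : ℝ, κ < 2 → Large i Λ κ) ∧
      (∀ d : ℝ, 0 < d → d < 1 / 2 → ZeroFree Λ (((i : ℝ) + 1) / 2 + d) →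
        ∀ κ : ℝ, κ < 1 / (2 * d * (1 - d)) → Large i Λ κ) ∧
      (∀ (κ : ℝ) (s : ℂ), 0 < κ → Λ s = 0 → ((i : ℝ) + 1) / 2 + 1 / κ < s.re →
        ∀ᶠ a : ℝ in atTop, ∃ n : ℕ, 1 ≤ n ∧ (n : ℝ) ≤ κ * a * Real.log a ∧ li i Λ a n < 0) ∧
      ((∃ κ : ℝ, 2 < κ ∧ SometimesNonneg i Λ κ) ↔ ∃ d : ℝ, d < 1 / 2 ∧ ZeroFree Λ (((i : ℝ) + 1) / 2 + d)) ∧
      ((∃ κ : ℝ, 2 < κ ∧ Large i Λ κ) ↔ ∃ d : ℝ, d < 1 / 2 ∧ ZeroFree Λ (((i : ℝ) + 1) / 2 + d)) ∧
      ((∀ s : ℂ, Λ s = 0 → s.re = ((i : ℝ) + 1) / 2) ↔ ∀ κ : ℝ, 0 < κ → SometimesNonneg i Λ κ) ∧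
      ((∀ s : ℂ, Λ s = 0 → s.re = ((i : ℝ) + 1) / 2) ↔ ∀ κ : ℝ, Large i Λ κ) := by
  have hone : ∀ j : Fin (n + 1), ∃ (X : ℂ → ℂ) (v : ℂ), Pool.Agent.N831.LP.P2 1 X ∧ v ≠ 0 ∧
      ∀ s : ℂ, (i : ℝ) / 2 + 1 < s.re → ∃ L : ℂ,
      HasProd (fun p : Nat.Primes =>
        (1 - a (π j).f p * ((p : ℕ) : ℂ) ^ (((π j).r : ℂ) - s) +
          (π j).ψ ((p : ℕ) : ZMod (π j).M) * ((p : ℕ) : ℂ) ^ ((i : ℂ) - 2 * s))⁻¹) L ∧
      X (s - ((((i : ℝ) + 1) / 2 : ℝ) : ℂ)) =
        v * (((Real.sqrt (π j).M / (2 * Real.pi) : ℝ) : ℂ) ^ s * Complex.Gamma (s - (π j).r) * L) := by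
    intro j
    haveI : NeZero (π j).M := ⟨Nat.one_le_iff_ne_zero.1 (π j).M_pos⟩
    have hf := (π j).newform
    obtain ⟨η, hη, hfr⟩ := hf.fricke
    have hf' : W388.IsNewfC (π j).M (π j).k (π j).ψ (π j).f η :=
      ⟨hf.neb, hf.one, hf.mul, hf.pow, hf.conj, hη, hfr⟩
    exact Pool.Agent.N831.LP.p2_new (π j).k_pos hf' (π j).weight
  obtain ⟨X, v, h1, h2, h3⟩ := Pool.Agent.N831.LP.p2_parts (σ := (i : ℝ) / 2 + 1)
    (a := ((((i : ℝ) + 1) / 2 : ℝ) : ℂ))
    (fun j p s => 1 - a (π j).f p * ((p : ℕ) : ℂ) ^ (((π j).r : ℂ) - s) +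
      (π j).ψ ((p : ℕ) : ZMod (π j).M) * ((p : ℕ) : ℂ) ^ ((i : ℂ) - 2 * s))
    (fun j s => ((Real.sqrt (π j).M / (2 * Real.pi) : ℝ) : ℂ) ^ s * Complex.Gamma (s - (π j).r)) hone
  rw [Fintype.card_fin] at h1
  obtain ⟨Λ, k1, k2, k3, k4, k5⟩ := Pool.Agent.N831.LP.lam_parts2 h1 h2 (P := fun p s => P π p s) (gm := gam π)
    (a := ((i : ℝ) + 1) / 2) h3
  have hκ : (1 : ℝ) / 2 ≤ ((n + 1 : ℕ) : ℝ) := by
    push_cast
    have : (0 : ℝ) ≤ n := Nat.cast_nonneg n
    linarith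
  have e2 : (2 : ℂ) * ((((i : ℝ) + 1) / 2 : ℝ) : ℂ) = i + 1 := by push_cast; ring
  refine ⟨Λ, ⟨k1, k2⟩, fun Λ' h' => k3 Λ' h'.1 h'.2, ?_, fun a ha n => ?_, ?_⟩
  · obtain ⟨W, hW, k6⟩ := k4
    refine ⟨W, hW, fun s => ?_⟩
    have k7 := k6 s
    rw [e2] at k7
    exact k7
  · have h1 := Pool.Agent.N831.LP.summable hκ h2 k5 (a := a) ha n
    rw [e2] at h1
    exact h1
  · exact Pool.Agent.N831.LP.main2 hκ h2 k5 (L := li i Λ) fun a n => by
      rw [e2]
      rfl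

end Pool.Agent.N831.Shelf.Li7193be
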