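import Pool.Agent.N831.LP.K

/-!
# MP_fb225e_nt: Li coefficients with a large base point, elliptic curves over abelian number fields

Let `E` be an elliptic curve over `ℚ` of conductor `N`, `K` an abelian number field of conductor prime to `N` (given by
its group `G` of Dirichlet characters), and `Λ(s) = Λ(E/K, s)` the completed L-function of `E` over `K`, an entire
function of degree `2 [K : ℚ]`. By the criterion of Li in the form of Bombieri and Lagarias (Lagarias and others for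
automorphic L-functions) the Riemann hypothesis for `L(E/K, s)` is equivalent to the positivity of the numbers
`li Λ a n = ∑_ρ Re (1 - ((ρ - a) / (ρ + a - 2))^n)` for all `n ≥ 1`, for any one base point `a ≥ 3/2`.

We prove without any hypothesis, for every `E` and every `K`: for every `κ < 2` all coefficients with `n ≤ κ a log a` are
positive, and at least `c n a log a`, for all large `a`. The constant `2`, which does not depend on the degree of `K`,
can be improved if and only if `Λ` has a zero-free half-plane `Re s > 1 + d` with `d < 1/2`; a zero with real part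
larger than `1 + 1/κ` produces a negative coefficient with `n ≤ κ a log a` for ALL large `a`. The Riemann hypothesis for
`L(E/K, s)` holds if and only if every constant `κ` is admissible.

Proof: modules `Pool.Agent.N831.LI` (the argument for abstract zeros, handed in for the zeta function: MP_db1c88_nt) and
`Pool.Agent.N831.LP`. `Λ` is a product over the characters of `K` of the L-functions of the twists of the newform of
`E`. The positivity needs for them a density theorem with exponent `(1 - 2δ)/(1 - δ)` for the zeros with real part at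
least `1 + δ`. It is proved here from the mean square of the mollified function (a large sieve argument to the right
of the strip, and the mollified second moment near the line of the modules `Pool.Agent.Y671`, `Pool.Agent.Y24.GL`) by
Halasz's and Montgomery's zero detection; the dual function takes care of the zeros below the real axis.
-/

set_option autoImplicit false

open Complex UpperHalfPlane MatrixGroups CongruenceSubgroup Filter
open scoped ComplexConjugate

namespace Pool.Agent.N831.Shelf.Lifb225e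

/-! ### Elliptic curves over `ℚ` and abelian number fields -/

/-- The coefficient `a_p` of `E : y² = x³ + a x + b` at a prime `p ∤ 2 (4a³ + 27b²)`: `p` minus the
number of pairs `(x, y)` modulo `p` with `y² ≡ x³ + a x + b (mod p)`. -/
noncomputable def ap (a b : ℤ) (p : ℕ) : ℤ :=
  (p : ℤ) - (((Finset.range p ×ˢ Finset.range p).filter
    (fun xy : ℕ × ℕ => (p : ℤ) ∣ (xy.2 : ℤ) ^ 2 -
      ((xy.1 : ℤ) ^ 3 + a * (xy.1 : ℤ) + b))).card : ℤ)

/-- The `n`-th Fourier coefficient of `f`. -/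
noncomputable def coef {N : ℕ} (f : CuspForm (Gamma0 N : Subgroup (GL (Fin 2) ℝ)) 2) (n : ℕ) : ℂ :=
  (qExpansion 1 f).coeff n

/-- `f ∈ S_2(Γ₀(N))` is the newform of the elliptic curve `E : y² = x³ + a x + b` of conductor `N` and
root number `w`: the Fourier coefficients `c(n)` of `f` are real with `c(1) = 1`, they satisfy the
Hecke relations `c(mn) = c(m) c(n)` for coprime `m`, `n` and `c(p^(j+2)) = c(p) c(p^(j+1)) - p c(p^j)`
(without the last term if `p ∣ N`), `f(-1/(Nτ)) = -w N τ² f(τ)`, `c(p) = a_p(E)` for all primes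
`p ∤ 2 (4a³ + 27b²)`, `|c(p)| ≤ 2 √p` for all `p ∤ N` (Hasse) and `c(p) = 0, 1, -1` for `p ∣ N`.
By the modularity theorem (Wiles, Taylor-Wiles, Breuil-Conrad-Diamond-Taylor) it exists for every `E`. -/
structure IsFormOf (a b : ℤ) (N : ℕ) (f : CuspForm (Gamma0 N : Subgroup (GL (Fin 2) ℝ)) 2) (w : ℝ) :
    Prop where
  one : coef f 1 = 1
  real : ∀ n, (coef f n).im = 0
  mul : ∀ m n : ℕ, Nat.Coprime m n → coef f (m * n) = coef f m * coef f n
  pow : ∀ p j : ℕ, p.Prime → coef f (p ^ (j + 2)) = coef f p * coef f (p ^ (j + 1)) -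
      (if p ∣ N then 0 else (p : ℂ) * coef f (p ^ j))
  sign : w = 1 ∨ w = -1
  fricke : ∀ τ τ' : ℍ, (τ' : ℂ) * ((N : ℂ) * (τ : ℂ)) = -1 →
    f τ' = -(w : ℂ) * (N : ℂ) * (τ : ℂ) ^ 2 * f τ
  points : ∀ p : ℕ, p.Prime → ¬ (p : ℤ) ∣ 2 * (4 * a ^ 3 + 27 * b ^ 2) → coef f p = (ap a b p : ℂ)
  good : ∀ p : ℕ, p.Prime → ¬ p ∣ N → ‖coef f p‖ ≤ 2 * Real.sqrt p
  bad : ∀ p : ℕ, p.Prime → p ∣ N → coef f p = 0 ∨ coef f p = 1 ∨ coef f p = -1

/-- The completed L-function of the twist of `E` by `χ` modulo `q`, for `Re s > 3/2`: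
`(√N q / 2π)^s Γ(s) ∑ c(n) χ(n) n^(-s)`. -/
noncomputable def twist {N : ℕ} (f : CuspForm (Gamma0 N : Subgroup (GL (Fin 2) ℝ)) 2) {q : ℕ}
    (χ : DirichletCharacter ℂ q) (s : ℂ) : ℂ :=
  ((Real.sqrt N * q / (2 * Real.pi) : ℝ) : ℂ) ^ s * Complex.Gamma s *
    ∑' n : ℕ, coef f (n + 1) * χ ((n + 1 : ℕ) : ZMod q) * ((n + 1 : ℕ) : ℂ) ^ (-s)

/-- `Λ = Λ(E/K, s)`, where `K` is the abelian number field with the group `G` of Dirichlet
characters: `Λ` is entire and, for `Re s > 3/2`, it is the product over `χ` in `G` of the completed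
L-functions of the twists of `E` by the primitive character associated with `χ`. -/
def IsCompleted {M : ℕ} (G : Subgroup (DirichletCharacter ℂ M)) [Fintype G] {N : ℕ}
    (f : CuspForm (Gamma0 N : Subgroup (GL (Fin 2) ℝ)) 2) (Λ : ℂ → ℂ) : Prop :=
  Differentiable ℂ Λ ∧ ∀ s : ℂ, 3 / 2 < s.re →
    Λ s = ∏ χ : G, twist f (χ : DirichletCharacter ℂ M).primitiveCharacter s

/-! ### Li coefficients -/

/-- The term of the zero `ρ` in the Li coefficient with base point `a`, with the multiplicity of `ρ`. -/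
noncomputable def term (Λ : ℂ → ℂ) (a : ℝ) (n : ℕ) (ρ : ℂ) : ℝ :=
  (analyticOrderNatAt Λ ρ : ℝ) * (1 - ((ρ - a) / (ρ + a - 2)) ^ n).re

/-- The Li coefficient with base point `a`: the sum over the zeros `ρ` of `Λ`, with multiplicity, of
`Re (1 - ((ρ - a) / (ρ + a - 2)) ^ n)`; `a = 3/2` is the usual choice. -/
noncomputable def li (Λ : ℂ → ℂ) (a : ℝ) (n : ℕ) : ℝ := ∑' ρ : {ρ : ℂ // Λ ρ = 0}, term Λ a n ρ

/-- The coefficients with `n ≤ κ a log a` are at least `c n a log a`, for all large `a`. -/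
def Large (Λ : ℂ → ℂ) (κ : ℝ) : Prop := ∃ c : ℝ, 0 < c ∧ ∀ᶠ a : ℝ in atTop, ∀ n : ℕ, 1 ≤ n →
  (n : ℝ) ≤ κ * a * Real.log a → c * n * a * Real.log a ≤ li Λ a n

/-- The coefficients with `n ≤ κ a log a` are nonnegative, for arbitrarily large `a`. -/
def SometimesNonneg (Λ : ℂ → ℂ) (κ : ℝ) : Prop := ∃ᶠ a : ℝ in atTop, ∀ n : ℕ, 1 ≤ n →
  (n : ℝ) ≤ κ * a * Real.log a → 0 ≤ li Λ a n

/-- `Λ` has no zeros with `Re s > θ`. -/
def ZeroFree (Λ : ℂ → ℂ) (θ : ℝ) : Prop := ∀ s : ℂ, θ < s.re → Λ s ≠ 0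

/-- **Main theorem.** Let `Λ = Λ(E/K, s)` be the completed L-function of an elliptic curve over `ℚ` over the abelian
number field `K` of conductor prime to that of `E`. It exists, is unique and satisfies the functional equation; the sums
`li Λ a n` converge absolutely for `a ≥ 3`.

(1) For `κ < 2` the coefficients with `n ≤ κ a log a` are at least `c n a log a` for all large `a`. (2) If `Λ` has no
zeros with `Re s > 1 + d`, `0 < d < 1/2`, then this holds for `κ < 1/(2 d (1 - d))`, a number larger than `2`. (3) If `Λ`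
has a zero with `Re s > 1 + 1/κ`, then for ALL large `a` there is a negative coefficient with `n ≤ κ a log a`. (4), (5)
Some `κ > 2` is admissible, if only for arbitrarily large `a` and nonnegativity, if and only if `Λ` has a zero-free
half-plane `Re s > 1 + d`, `d < 1/2`. (6), (7) All `κ` are admissible if and only if the Riemann hypothesis for
`L(E/K, s)` holds. -/
theorem result : ∀ (a b : ℤ) (N : ℕ) [NeZero N] (f : CuspForm (Gamma0 N : Subgroup (GL (Fin 2) ℝ)) 2) (w : ℝ),
    4 * a ^ 3 + 27 * b ^ 2 ≠ 0 → IsFormOf a b N f w →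
    ∀ (M : ℕ) [NeZero M] (G : Subgroup (DirichletCharacter ℂ M)) [Fintype G], Nat.Coprime M N →
    ∃ Λ : ℂ → ℂ, IsCompleted G f Λ ∧ (∀ Λ' : ℂ → ℂ, IsCompleted G f Λ' → Λ' = Λ) ∧
      (∃ W : ℂ, ‖W‖ = 1 ∧ ∀ s : ℂ, Λ (2 - s) = W * conj (Λ (conj s))) ∧
      (∀ a : ℝ, 3 ≤ a → ∀ n : ℕ, Summable fun ρ : {ρ : ℂ // Λ ρ = 0} => term Λ a n ρ) ∧
      (∀ κ : ℝ, κ < 2 → Large Λ κ) ∧
      (∀ d : ℝ, 0 < d → d < 1 / 2 → ZeroFree Λ (1 + d) → ∀ κ : ℝ, κ < 1 / (2 * d * (1 - d)) → Large Λ κ) ∧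
      (∀ (κ : ℝ) (s : ℂ), 0 < κ → Λ s = 0 → 1 + 1 / κ < s.re →
        ∀ᶠ a : ℝ in atTop, ∃ n : ℕ, 1 ≤ n ∧ (n : ℝ) ≤ κ * a * Real.log a ∧ li Λ a n < 0) ∧
      ((∃ κ : ℝ, 2 < κ ∧ SometimesNonneg Λ κ) ↔ ∃ d : ℝ, d < 1 / 2 ∧ ZeroFree Λ (1 + d)) ∧
      ((∃ κ : ℝ, 2 < κ ∧ Large Λ κ) ↔ ∃ d : ℝ, d < 1 / 2 ∧ ZeroFree Λ (1 + d)) ∧
      ((∀ s : ℂ, Λ s = 0 → s.re = 1) ↔ ∀ κ : ℝ, 0 < κ → SometimesNonneg Λ κ) ∧
      ((∀ s : ℂ, Λ s = 0 → s.re = 1) ↔ ∀ κ : ℝ, Large Λ κ) := by
  intro a b N _ f w _ hf M _ G _ hco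
  have hf' : Pool.Agent.W169.HF.IsForm N f w :=
    { one := hf.one
      real := hf.real
      mul := hf.mul
      pow := hf.pow
      sign := hf.sign
      fricke := hf.fricke
      good := hf.good
      bad := fun p hp hpN => by
        have h1 : (1 : ℝ) ≤ Real.sqrt p := by
          rw [Real.one_le_sqrt]
          exact_mod_cast hp.one_le
        have h2 : ‖coef f p‖ ≤ 1 := by
          rcases hf.bad p hp hpN with h | h | h <;> simp [h]
        exact h2.trans h1 }
  obtain ⟨X, v, hP, hv, hX⟩ := Pool.Agent.N831.LP.p2_ab G hf' hco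
  obtain ⟨Λ, h1, h2, h3, h4⟩ := Pool.Agent.N831.LP.exists_Lam2 hP 1 (G := Pool.Agent.W355.UN.prodE G f) hv (σ := 3 / 2)
    (fun s hs => by rw [Complex.ofReal_one]; exact hX s hs)
  have hκ : (1 : ℝ) / 2 ≤ Fintype.card G := by
    have h5 : (1 : ℝ) ≤ Fintype.card G := by exact_mod_cast (Fintype.card_pos : 0 < Fintype.card G)
    linarith
  have e2 : (2 : ℂ) * ((1 : ℝ) : ℂ) = 2 := by push_cast; ring
  refine ⟨Λ, ⟨h1, h2⟩, fun Λ' h' => Pool.Agent.R838.TW.uniq h1 h'.1 ⟨3 / 2, h2⟩ ⟨3 / 2, h'.2⟩, ?_, fun a ha n => ?_, ?_⟩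
  · obtain ⟨W, hW, h7⟩ := h3
    refine ⟨W, hW, fun s => ?_⟩
    have h8 := h7 s
    rwa [Complex.ofReal_one, mul_one] at h8
  · have h1 := Pool.Agent.N831.LP.summable hκ hv h4 (a := a) (by linarith) n
    rw [e2] at h1
    exact h1
  · exact Pool.Agent.N831.LP.main2 hκ hv h4 (L := li Λ) fun a n => by
      rw [e2]
      rfl

end Pool.Agent.N831.Shelf.Lifb225e
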