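import Pool.Agent.N831.SX.O
import Pool.Agent.N831.SD.S

/-!
# MP_fb225e_nt: zeros of `L(E/K, s)` and of its derivatives to the left of the critical line

Let `E` be an elliptic curve over `ℚ` of conductor `N`, `K` an abelian number field of conductor prime to `N` (given by
its group `G` of Dirichlet characters), and `L(s) = L(E/K, s)`, an entire function of degree `2 [K : ℚ]`, with critical
line `Re s = 1`. By the theorem of Speiser (Levinson and Montgomery for zeta with `O(log T)`, Garunkstis and Simenas for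
the Selberg class) the Riemann hypothesis is a statement on the zeros of the derivative `L'` with `Re s < 1`: the numbers
of zeros of `L` and of `L'` with `Re s < 1` and `0 < Im s ≤ T` differ by `O(log T)`.

We prove, without any hypothesis, for every `E` and every `K`, with some constant `B` (all zeros are counted with
multiplicity, `Im s > B`):

1. (Jensen discs) every zero `s` of `L'` with `Re s < 1` lies in the disc with centre `1 + i γ` and radius `β - 1` for
   some zero `β + i γ` of `L` with `β > 1`.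
2. The numbers of zeros of `L` and of `L'` with `Re s < 1` are EQUAL between any two heights which are not in the union
   of the intervals `(γ - (β - 1), γ + (β - 1))`, for the zeros `β + i γ` of `L` with `β > 1`.
3. The difference of the two numbers exceeds `l` in absolute value only on a set of heights of measure `C e^(-cl) T` in
   `[B, T]`; in particular all of its moments are bounded.
4. (All derivatives) For EVERY `k ≥ 1`, with constants depending on `k`: a zero `s` of `L^(k)` with `Re s < 1` and large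
   imaginary part is a zero of `L` or has a zero of `L` strictly to its left within bounded vertical distance; if
   `Re s ≤ 1 - C / log (Im s)` it lies in the disc with centre `1 + i γ` and radius `β - 1 + C / log (Im s)` for some zero
   `β + i γ` of `L` with `β > 1`; conversely, for every `ε > 0`, every zero `ρ` of `L` with `Re ρ ≤ 1 - ε` and large
   imaginary part has a zero `s` of `L^(k)` with `Re s < Re ρ + ε` within bounded vertical distance; so the lower limit of
   the real parts of the zeros (`Im s → ∞`) is the same for `L` and all `L^(k)` if one of these lower limits is `< 1`.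
   `L^(k)` has at most `C T^(1 - c δ) log T` zeros with `Re s ≤ 1 - δ` up to height `T`, for all `δ ≥ 0`, and at most
   `C log T` times the number of the distinct zeros of `L` with `Re s ≥ 1 + δ`.

The proof (modules `Pool.Agent.N831.SX`) compares `log |L|` and its derivative with polynomials whose zeros are the zeros
of the completed function; for 3. the difference is bounded, at a height `t`, in terms of the largest scale at which
either the modulus of the completed function is not monotone or the mollified function is not close to 1 near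
`1 + i t`; large scales are rare by the density theorem of Selberg and the mollified mean square near the line (starting
modules `Pool.Agent.Y24.GL`, `Pool.Agent.Y671`, `Pool.Agent.Y693`, `Pool.Agent.R838`). For 4. (modules
`Pool.Agent.N831.SD`) the function `|L(s)| exp(κ' Re s log t)` is compared with a convex function on windows of bounded
size around `1 + i t`: to the left of all zeros of `L` in a window it grows almost exactly like its exponential factor.
-/

set_option autoImplicit false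

open Complex UpperHalfPlane MatrixGroups CongruenceSubgroup Filter MeasureTheory

namespace Pool.Agent.Results.MP_fb225e_nt.SpeiserEqualCounts

/-! ### Elliptic curves over `ℚ` and abelian number fields -/

/-- The coefficient `a_p` of `E : y² = x³ + a x + b` at a prime `p ∤ 2 (4a³ + 27b²)`: `p` minus the
number of pairs `(x, y)` modulo `p` with `y² ≡ x³ + a x + b (mod p)`. -/
noncomputable def ap (a b : ℤ) (p : ℕ) : ℤ :=
  (p : ℤ) - (((Finset.range p ×ˢ Finset.range p).filter
    (fun xy : ℕ × ℕ => (p : ℤ) ∣ (xy.2 : ℤ) ^ 2 -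
      ((xy.1 : ℤ) ^ 3 + a * (xy.1 : ℤ) + b))).card : ℤ)

/-- The `n`-th Fourier coefficient of `f`. -/
noncomputable def coef {N : ℕ} (f : CuspForm (Gamma0 N : Subgroup (GL (Fin 2) ℝ)) 2) (n : ℕ) : ℂ :=
  (qExpansion 1 f).coeff n

/-- `f ∈ S_2(Γ₀(N))` is the newform of the elliptic curve `E : y² = x³ + a x + b` of conductor `N` and
root number `w`: the Fourier coefficients `c(n)` of `f` are real with `c(1) = 1`, they satisfy the
Hecke relations `c(mn) = c(m) c(n)` for coprime `m`, `n` and `c(p^(j+2)) = c(p) c(p^(j+1)) - p c(p^j)`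
(without the last term if `p ∣ N`), `f(-1/(Nτ)) = -w N τ² f(τ)`, `c(p) = a_p(E)` for all primes
`p ∤ 2 (4a³ + 27b²)`, `|c(p)| ≤ 2 √p` for all `p ∤ N` (Hasse) and `c(p) = 0, 1, -1` for `p ∣ N`.
By the modularity theorem (Wiles, Taylor-Wiles, Breuil-Conrad-Diamond-Taylor) it exists for every `E`. -/
structure IsFormOf (a b : ℤ) (N : ℕ) (f : CuspForm (Gamma0 N : Subgroup (GL (Fin 2) ℝ)) 2) (w : ℝ) :
    Prop where
  one : coef f 1 = 1
  real : ∀ n, (coef f n).im = 0
  mul : ∀ m n : ℕ, Nat.Coprime m n → coef f (m * n) = coef f m * coef f n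
  pow : ∀ p j : ℕ, p.Prime → coef f (p ^ (j + 2)) = coef f p * coef f (p ^ (j + 1)) -
      (if p ∣ N then 0 else (p : ℂ) * coef f (p ^ j))
  sign : w = 1 ∨ w = -1
  fricke : ∀ τ τ' : ℍ, (τ' : ℂ) * ((N : ℂ) * (τ : ℂ)) = -1 →
    f τ' = -(w : ℂ) * (N : ℂ) * (τ : ℂ) ^ 2 * f τ
  points : ∀ p : ℕ, p.Prime → ¬ (p : ℤ) ∣ 2 * (4 * a ^ 3 + 27 * b ^ 2) → coef f p = (ap a b p : ℂ)
  good : ∀ p : ℕ, p.Prime → ¬ p ∣ N → ‖coef f p‖ ≤ 2 * Real.sqrt p
  bad : ∀ p : ℕ, p.Prime → p ∣ N → coef f p = 0 ∨ coef f p = 1 ∨ coef f p = -1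

/-- The L-series of the twist of `E` by `χ` modulo `q`, for `Re s > 3/2`: `∑ c(n) χ(n) n^(-s)`. -/
noncomputable def series {N : ℕ} (f : CuspForm (Gamma0 N : Subgroup (GL (Fin 2) ℝ)) 2) {q : ℕ}
    (χ : DirichletCharacter ℂ q) (s : ℂ) : ℂ :=
  ∑' n : ℕ, coef f (n + 1) * χ ((n + 1 : ℕ) : ZMod q) * ((n + 1 : ℕ) : ℂ) ^ (-s)

/-- `L = L(E/K, s)`, where `K` is the abelian number field with the group `G` of Dirichlet characters: `L` is entire
and, for `Re s > 3/2`, it is the product over `χ` in `G` of the L-series of the twists of `E` by the primitive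
character associated with `χ`. -/
def IsLFunction {M : ℕ} (G : Subgroup (DirichletCharacter ℂ M)) [Fintype G] {N : ℕ}
    (f : CuspForm (Gamma0 N : Subgroup (GL (Fin 2) ℝ)) 2) (L : ℂ → ℂ) : Prop :=
  Differentiable ℂ L ∧ ∀ s : ℂ, 3 / 2 < s.re →
    L s = ∏ χ : G, series f (χ : DirichletCharacter ℂ M).primitiveCharacter s

/-! ### Zeros to the left of the critical line -/

/-- The zeros of `F` with `Re s < 1` and `T₁ < Im s ≤ T₂`. -/
def Zeros (F : ℂ → ℂ) (T₁ T₂ : ℝ) : Set ℂ := {s | F s = 0 ∧ s.re < 1 ∧ T₁ < s.im ∧ s.im ≤ T₂}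

/-- Their number, counted with multiplicity. -/
noncomputable def count (F : ℂ → ℂ) (T₁ T₂ : ℝ) : ℕ := ∑ᶠ s ∈ Zeros F T₁ T₂, analyticOrderNatAt F s

/-- The union of the intervals `(γ - (β - 1), γ + (β - 1))` over the zeros `β + i γ` of `L` with `β > 1`. It is empty if
and only if `L` has no zeros with `Re s > 1`. -/
def Shadow (L : ℂ → ℂ) : Set ℝ := {t : ℝ | ∃ ρ : ℂ, L ρ = 0 ∧ |t - ρ.im| < ρ.re - 1}

/-- The number, with multiplicity, of the zeros of `F` with `T₀ < Im s ≤ T` to the left of the critical line and at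
distance at least `δ` from it. -/
noncomputable def Far (F : ℂ → ℂ) (T₀ δ T : ℝ) : ℕ :=
  ∑ᶠ s ∈ {s | s ∈ Zeros F T₀ T ∧ s.re ≤ 1 - δ}, analyticOrderNatAt F s

/-- The number of distinct zeros of `L` with `0 < Im s ≤ T` to the right of the critical line and at distance at least
`δ` from it. -/
noncomputable def Right (L : ℂ → ℂ) (δ T : ℝ) : ℕ :=
  {s : ℂ | L s = 0 ∧ 1 < s.re ∧ 1 + δ ≤ s.re ∧ 0 < s.im ∧ s.im ≤ T}.ncard

/-- **Theorem.** Let `L(s) = L(E/K, s)` be the L-function of an elliptic curve over `ℚ` over an abelian number field `K`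
of conductor prime to that of `E` (it exists and is unique). For some `B`: Jensen discs for the zeros of the derivative
to the left of the line; equality of the numbers of zeros of `L` and of its derivative to the left of the line between
any two heights outside of the shadow; exponentially small tails of the difference of the two numbers; for every
derivative the two-sided comparison of the zeros with those of `L`, and the density theorems. -/
theorem result : ∀ (a b : ℤ) (N : ℕ) [NeZero N] (f : CuspForm (Gamma0 N : Subgroup (GL (Fin 2) ℝ)) 2) (w : ℝ),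
    4 * a ^ 3 + 27 * b ^ 2 ≠ 0 → IsFormOf a b N f w →
    ∀ (M : ℕ) [NeZero M] (G : Subgroup (DirichletCharacter ℂ M)) [Fintype G], Nat.Coprime M N →
    ∃ L : ℂ → ℂ, IsLFunction G f L ∧ (∀ L' : ℂ → ℂ, IsLFunction G f L' → L' = L) ∧ ∃ B : ℝ,
      -- 1. Jensen discs
      (∀ s : ℂ, deriv L s = 0 → s.re < 1 → B ≤ s.im →
        ∃ ρ : ℂ, L ρ = 0 ∧ 1 < ρ.re ∧ ‖s - ⟨1, ρ.im⟩‖ ≤ ρ.re - 1) ∧
      -- 2. equality
      (∀ T₁ T₂ : ℝ, B ≤ T₁ → T₁ < T₂ → T₁ ∉ Shadow L → T₂ ∉ Shadow L →
        count L T₁ T₂ = count (deriv L) T₁ T₂) ∧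
      -- 3. exponential tails
      (∀ T : ℝ, (Zeros L B T).Finite ∧ (Zeros (deriv L) B T).Finite) ∧
      (∃ c C : ℝ, 0 < c ∧ 0 < C ∧ ∀ l T : ℝ, 0 ≤ l → 0 ≤ T →
        volume {t : ℝ | B ≤ t ∧ t ≤ T ∧ l < |(count (deriv L) B t : ℝ) - count L B t|} ≤
          ENNReal.ofReal (C * Real.exp (-(c * l)) * T)) ∧
      -- 4. all derivatives
      ∀ k : ℕ, 1 ≤ k →
        -- to the right
        (∀ ε : ℝ, 0 < ε → ∃ R T₁ : ℝ, 0 < R ∧ ∀ ρ : ℂ, L ρ = 0 → T₁ ≤ ρ.im → ρ.re ≤ 1 - ε →
          ∃ s : ℂ, iteratedDeriv k L s = 0 ∧ s.re < ρ.re + ε ∧ |s.im - ρ.im| ≤ R) ∧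
        ∃ c C T₀ : ℝ, 0 < c ∧ 0 < C ∧ 2 ≤ T₀ ∧
          -- to the left, and Jensen discs
          (∀ s : ℂ, iteratedDeriv k L s = 0 → s.re < 1 → T₀ ≤ s.im →
            (∃ ρ : ℂ, L ρ = 0 ∧ |ρ.im - s.im| ≤ C ∧ (ρ.re < s.re ∨ ρ = s)) ∧
            (s.re ≤ 1 - C / Real.log s.im → ∃ ρ : ℂ, L ρ = 0 ∧ 1 < ρ.re ∧
              ‖s - ⟨1, ρ.im⟩‖ < ρ.re - 1 + C / Real.log s.im)) ∧
          -- density theorems
          (∀ T : ℝ, (Zeros (iteratedDeriv k L) T₀ T).Finite) ∧
          (∀ δ T : ℝ, 0 ≤ δ → 2 ≤ T →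
            (Far (iteratedDeriv k L) T₀ δ T : ℝ) ≤ C * T ^ (1 - c * δ) * Real.log T) ∧
          (∀ δ T : ℝ, 0 ≤ δ → 2 ≤ T →
            (Far (iteratedDeriv k L) T₀ δ T : ℝ) ≤ C * Real.log T * Right L δ (T + C)) := by
  intro a b N _ f w _ hf M _ G _ hco
  have hf' : Pool.Agent.W169.HF.IsForm N f w :=
    { one := hf.one
      real := hf.real
      mul := hf.mul
      pow := hf.pow
      sign := hf.sign
      fricke := hf.fricke
      good := hf.good
      bad := fun p hp hpN => by
        have h1 : (1 : ℝ) ≤ Real.sqrt p := by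
          rw [Real.one_le_sqrt]
          exact_mod_cast hp.one_le
        have h2 : ‖coef f p‖ ≤ 1 := by
          rcases hf.bad p hp hpN with h | h | h <;> simp [h]
        exact h2.trans h1 }
  obtain ⟨X, F, hG, hd, hF⟩ := Pool.Agent.N831.SD.pg_ab G hf' hco
  have hP := hG.pq
  have hκ : (1 : ℝ) / 2 ≤ Fintype.card G := by
    have h5 : (1 : ℝ) ≤ Fintype.card G := by exact_mod_cast (Fintype.card_pos : 0 < Fintype.card G)
    linarith
  have e0 : (((1 : ℝ) - 1 / 2 : ℝ) : ℂ) = 1 / 2 := by push_cast; ring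
  obtain ⟨L, hLd⟩ : ∃ L : ℂ → ℂ, L = fun s => F (s - 1 / 2) := ⟨_, rfl⟩
  have hL : ∀ s, L s = F (s - (((1 : ℝ) - 1 / 2 : ℝ) : ℂ)) := fun s => by rw [hLd, e0]
  have hdiff : Differentiable ℂ L := by
    rw [hLd]
    exact hd.comp (by fun_prop)
  have hser : ∀ s : ℂ, 3 / 2 < s.re → L s = ∏ χ : G, series f (χ : DirichletCharacter ℂ M).primitiveCharacter s := by
    intro s hs
    rw [hLd]
    exact hF s hs
  obtain ⟨B, hR⟩ := Pool.Agent.N831.SX.resX hκ hP hL
  refine ⟨L, ⟨hdiff, hser⟩, fun L' h' => Pool.Agent.R838.TW.uniq hdiff h'.1 ⟨3 / 2, hser⟩ ⟨3 / 2, h'.2⟩, B,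
    hR.jen, ?_, hR.fin, hR.tails, fun k _ => ?_⟩
  · intro T₁ T₂ h1 h2 h3 h4
    have key : ∀ T : ℝ, T ∉ Shadow L → ∀ ρ : ℂ, L ρ = 0 → ρ.re - 1 ≤ |T - ρ.im| := by
      intro T hT ρ hρ
      by_contra hcon
      push Not at hcon
      exact hT ⟨ρ, hρ, hcon⟩
    exact hR.eqn T₁ T₂ h1 h2 (key _ h3) (key _ h4)
  · have hA := hG.allX hκ hL k
    have e : ∀ (F : ℂ → ℂ) (T₀ δ T : ℝ), {s | s ∈ Zeros F T₀ T ∧ s.re ≤ 1 - δ} =
        Pool.Agent.N831.SX.ZDX F 1 T₀ δ T := by
      intro F T₀ δ T
      ext s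
      constructor
      · rintro ⟨⟨g1, g2, g3, g4⟩, g5⟩
        exact ⟨g1, g2, g5, g3, g4⟩
      · rintro ⟨g1, g2, g5, g3, g4⟩
        exact ⟨⟨g1, g2, g3, g4⟩, g5⟩
    refine ⟨hA.right, ?_⟩
    obtain ⟨c, C, T₀, hc, hC, hT₀, g1, g2, g3, g4⟩ := hA.left
    refine ⟨c, C, T₀, hc, hC, hT₀, g1, g2, ?_, ?_⟩
    · intro δ T hδ hT
      unfold Far
      rw [e]
      exact g3 δ T hδ hT
    · intro δ T hδ hT
      unfold Far
      rw [e]
      exact g4 δ T hδ hT

end Pool.Agent.Results.MP_fb225e_nt.SpeiserEqualCounts
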