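import Pool.Agent.N831.SD.U
import Pool.Agent.Y771.NF.FinD

/-!
# MP_cd509c_nt: the non-real zeros of the Ramanujan Xi function and the zeros of the derivatives of `L(s, Δ)`

Let `Λ(s) = (2π)^(-s) Γ(s) L(s, Δ)`, `Ξ_Δ(z) = Λ(6 + i z)`. It is conjectured that all zeros of `Ξ_Δ` are real, that is,
that `L(s, Δ) = ∑ τ(n) n^(-s)` has no zeros with `Re s ≠ 6` besides the trivial ones. By the theorem of Speiser
(Levinson and Montgomery for zeta, Garunkstis and Simenas for the Selberg class, with an error `O(log T)`) this is a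
statement on the zeros of the derivative `L'(s, Δ)` with `Re s < 6`.

We prove without any hypothesis, with some constant `B` (all zeros are counted with multiplicity):

1. (Jensen discs) every zero `s` of `L'` with `Re s < 6`, `Im s ≥ B` lies in the disc with centre `6 + i Re z` and radius
   `|Im z|` for some non-real zero `z` of `Ξ_Δ`.
2. The number of zeros `z` of `Ξ_Δ` with `Im z > 0` and `T₁ < Re z ≤ T₂` and the number of the zeros of `L'` with
   `Re s < 6` and `T₁ < Im s ≤ T₂` are EQUAL for any two heights `T₁, T₂ ≥ B` which are not in the union of the intervals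
   `(Re z - |Im z|, Re z + |Im z|)`, for the zeros `z` of `Ξ_Δ`.
3. The difference of the two numbers (between `B` and `t`) exceeds `l` in absolute value only on a set of `t` of
   measure `C e^(-cl) T` in `[B, T]`; in particular all of its moments are bounded.
4. (All derivatives) For EVERY `k ≥ 1`, with constants depending on `k`: for every zero `s` of `L^(k)` with `Re s < 6` and
   large imaginary part there is a zero `z` of `Ξ_Δ` with `|Im z| ≥ 6 - Re s` and `|Re z - Im s| ≤ C`; if moreover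
   `Re s ≤ 6 - C / log (Im s)`, then `s` lies in the disc with centre `6 + i Re z` and radius `|Im z| + C / log (Im s)` for
   some non-real zero `z`. Conversely, for every `ε > 0`, for every zero `z` of `Ξ_Δ` with `|Im z| ≥ ε` and large real
   part there is a zero `s` of `L^(k)` with `6 - Re s > |Im z| - ε` and `|Im s - Re z| ≤ R`. So the upper limits of
   `|Im z|` over the zeros of `Ξ_Δ` and of `6 - Re s` over the zeros of `L^(k)` (as `Re z`, `Im s → ∞`) are the same for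
   all `k ≥ 1`, if one of them is positive.

The proof (modules `Pool.Agent.N831.SX`, `Pool.Agent.N831.SD`) compares `log |L|` and its derivative with polynomials
whose zeros are the zeros of the completed function; for 3. the difference is bounded in terms of the largest scale at
which either the modulus of the completed function is not monotone or the mollified function is not close to 1; large
scales are rare by the density theorem of Selberg and the mollified mean square near the line (starting modules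
`Pool.Agent.Y24.GL`, `Pool.Agent.Y671`, `Pool.Agent.Y693`, `Pool.Agent.R838`).
-/

set_option autoImplicit false

open Complex Filter MeasureTheory

namespace Pool.Agent.N831.Shelf.Speisercd509c

/-- `Δ(i y) = e^(-2πy) ∏_{n ≥ 1} (1 - e^(-2πny))^24`, the modular discriminant on the imaginary axis
(the function of the frozen statement S18517). -/
noncomputable def delta (y : ℝ) : ℝ :=
  Real.exp (-2 * Real.pi * y) * ∏' n : ℕ, (1 - Real.exp (-2 * Real.pi * ((n : ℝ) + 1) * y)) ^ 24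

/-- The completed L-function `Λ(s) = ∫_0^∞ Δ(i y) y^(s-1) dy = (2π)^(-s) Γ(s) L(s, Δ)`, an entire
function with `Λ(12 - s) = Λ(s)`. -/
noncomputable def Lam (s : ℂ) : ℂ := mellin (fun y : ℝ => ((delta y : ℝ) : ℂ)) s

/-- The Ramanujan Xi function `Ξ_Δ(z) = Λ(6 + i z)`. -/
noncomputable def Xi (z : ℂ) : ℂ := Lam (6 + I * z)

/-- `L(s, Δ) = ∑ τ(n) n^(-s) = (2π)^s Λ(s) / Γ(s)`, an entire function (in Lean `1 / Γ(-n) = 0` for `n = 0, 1, 2, …`,
as it should be). -/
noncomputable def L (s : ℂ) : ℂ := (2 * Real.pi : ℂ) ^ s * (Gamma s)⁻¹ * Lam s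

/-- The zeros of `Ξ_Δ` in the upper half plane with `T₁ < Re z ≤ T₂`. -/
def NonReal (T₁ T₂ : ℝ) : Set ℂ := {z | Xi z = 0 ∧ 0 < z.im ∧ T₁ < z.re ∧ z.re ≤ T₂}

/-- Their number, counted with multiplicity. -/
noncomputable def nonReal (T₁ T₂ : ℝ) : ℕ := ∑ᶠ z ∈ NonReal T₁ T₂, analyticOrderNatAt Xi z

/-- The zeros of the derivative `L'` to the left of the critical line with `T₁ < Im s ≤ T₂`. -/
def Left (T₁ T₂ : ℝ) : Set ℂ := {s | deriv L s = 0 ∧ s.re < 6 ∧ T₁ < s.im ∧ s.im ≤ T₂}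

/-- Their number, counted with multiplicity. -/
noncomputable def left (T₁ T₂ : ℝ) : ℕ := ∑ᶠ s ∈ Left T₁ T₂, analyticOrderNatAt (deriv L) s

/-- The union of the intervals `(Re z - |Im z|, Re z + |Im z|)` over the zeros `z` of `Ξ_Δ`. It is empty if and only if
all zeros of `Ξ_Δ` are real. -/
def Shadow : Set ℝ := {t : ℝ | ∃ z : ℂ, Xi z = 0 ∧ |t - z.re| < |z.im|}

lemma lam_eq : Pool.Agent.Y771.NF.Lam (N := 1) (k := 12) Pool.Agent.W97.TW.deltaForm = Lam := by
  funext s
  rw [Pool.Agent.Y771.NF.Lam_delta]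
  rfl

lemma Lam_diff : Differentiable ℂ Lam := by
  rw [← lam_eq]
  exact Pool.Agent.Y771.NF.Lam_diff (by norm_num) Pool.Agent.Y771.NF.newf_delta

lemma Lam_conj (s : ℂ) : Lam ((starRingEnd ℂ) s) = (starRingEnd ℂ) (Lam s) := by
  rw [← lam_eq]
  exact Pool.Agent.Y771.NF.Lam_conj Pool.Agent.Y771.NF.newf_delta s

lemma Lam_fe (s : ℂ) : Lam (12 - s) = Lam s := by
  have h := Pool.Agent.Y771.NF.Lam_fe (by norm_num) Pool.Agent.Y771.NF.newf_delta s
  rw [lam_eq] at h
  simpa using h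

lemma Xi_eq (s : ℂ) : Xi (-(I * (s - 6))) = Lam s := by
  unfold Xi
  congr 1
  rw [mul_neg, ← mul_assoc, I_mul_I]
  ring

lemma im_eq (s : ℂ) : (-(I * (s - 6))).im = 6 - s.re := by
  simp

lemma re_eq (s : ℂ) : (-(I * (s - 6))).re = s.im := by
  simp

lemma two_pi_ne : (2 * Real.pi : ℂ) ≠ 0 := by
  have := Real.pi_pos
  exact_mod_cast (by positivity : (2 * Real.pi : ℝ) ≠ 0)

lemma fac_ne {s : ℂ} (hs : s.im ≠ 0 ∨ 0 < s.re) : (2 * Real.pi : ℂ) ^ s * (Gamma s)⁻¹ ≠ 0 := by
  refine mul_ne_zero ?_ (inv_ne_zero (Gamma_ne_zero fun m hm => ?_))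
  · rw [Ne, cpow_eq_zero_iff]
    exact fun h => two_pi_ne h.1
  · rcases hs with h | h
    · apply h
      rw [hm]
      simp
    · rw [hm] at h
      simp at h
      have : (0 : ℝ) ≤ m := Nat.cast_nonneg m
      linarith

lemma zero_iff {s : ℂ} (hs : s.im ≠ 0 ∨ 0 < s.re) : L s = 0 ↔ Xi (-(I * (s - 6))) = 0 := by
  rw [Xi_eq]
  unfold L
  rw [mul_eq_zero]
  exact ⟨fun h => h.resolve_left (fac_ne hs), Or.inr⟩

/-- `Ξ_Δ` is real on the real line. -/
lemma Xi_conj (z : ℂ) : Xi ((starRingEnd ℂ) z) = (starRingEnd ℂ) (Xi z) := by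
  unfold Xi
  rw [← Lam_conj, ← Lam_fe]
  congr 1
  simp only [map_add, map_mul, conj_I, map_ofNat]
  ring

lemma fac_diff : Differentiable ℂ (fun s : ℂ => (2 * Real.pi : ℂ) ^ s * (Gamma s)⁻¹) := by
  have h1 : Differentiable ℂ (fun s : ℂ => (2 * Real.pi : ℂ) ^ s) := fun s =>
    DifferentiableAt.const_cpow differentiableAt_id (Or.inl two_pi_ne)
  exact h1.mul differentiable_one_div_Gamma

lemma L_diff : Differentiable ℂ L := fac_diff.mul Lam_diff

lemma order_eq {z : ℂ} (hz : z.re ≠ 0) : analyticOrderNatAt Xi z = analyticOrderNatAt L (6 + I * z) := by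
  obtain ⟨s, hs⟩ : ∃ s : ℂ, s = 6 + I * z := ⟨_, rfl⟩
  have hsi : s.im ≠ 0 := by
    rw [hs]
    simpa using hz
  have h1 : AnalyticAt ℂ (fun s : ℂ => (2 * Real.pi : ℂ) ^ s * (Gamma s)⁻¹) s := fac_diff.analyticAt s
  have h2 : AnalyticAt ℂ Lam s := Lam_diff.analyticAt s
  have h3 : analyticOrderAt L s = analyticOrderAt Lam s := by
    have e : L = (fun s : ℂ => (2 * Real.pi : ℂ) ^ s * (Gamma s)⁻¹) * Lam := rfl
    rw [e, analyticOrderAt_mul h1 h2, h1.analyticOrderAt_eq_zero.2 (fac_ne (Or.inl hsi)), zero_add]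
  have h4 : analyticOrderAt Xi z = analyticOrderAt Lam (6 + I * z) := by
    have e : Xi = Lam ∘ (fun z : ℂ => 6 + I * z) := rfl
    rw [e, analyticOrderAt_comp_of_deriv_ne_zero]
    · fun_prop
    · have : deriv (fun z : ℂ => 6 + I * z) z = I := by
        rw [deriv_const_add, deriv_const_mul_id']
      rw [this]
      exact I_ne_zero
  unfold analyticOrderNatAt
  rw [h4, ← hs, h3]

lemma nonReal_eq {T₁ T₂ : ℝ} (h : 0 < T₁) : nonReal T₁ T₂ = Pool.Agent.N831.SX.NX L 6 T₁ T₂ := by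
  unfold nonReal Pool.Agent.N831.SX.NX
  refine finsum_mem_eq_of_bijOn (fun z : ℂ => 6 + I * z) ⟨?_, ?_, ?_⟩ ?_
  · rintro z ⟨h1, h2, h3, h4⟩
    have e1 : (6 + I * z).im = z.re := by simp
    have e2 : (6 + I * z).re = 6 - z.im := by simp [sub_eq_add_neg]
    refine ⟨?_, ?_, ?_, ?_⟩
    · rw [zero_iff (Or.inl (by rw [e1]; linarith))]
      have : -(I * (6 + I * z - 6)) = z := by
        rw [add_sub_cancel_left, ← mul_assoc, I_mul_I]
        ring
      rw [this]
      exact h1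
    · show (6 + I * z).re < 6
      rw [e2]
      linarith
    · show T₁ < (6 + I * z).im
      rw [e1]
      exact h3
    · show (6 + I * z).im ≤ T₂
      rw [e1]
      exact h4
  · intro z _ w _ hzw
    exact mul_left_cancel₀ I_ne_zero (add_left_cancel hzw)
  · rintro s ⟨h1, h2, h3, h4⟩
    refine ⟨-(I * (s - 6)), ⟨?_, ?_, ?_, ?_⟩, ?_⟩
    · exact (zero_iff (Or.inl (by linarith))).1 h1
    · rw [im_eq]
      linarith
    · rw [re_eq]
      exact h3
    · rw [re_eq]
      exact h4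
    · show 6 + I * (-(I * (s - 6))) = s
      rw [mul_neg, ← mul_assoc, I_mul_I]
      ring
  · rintro z ⟨h1, h2, h3, h4⟩
    exact order_eq (by linarith)

/-- **Theorem.** `L = L(s, Δ)` is entire. For some `B`: 1. Jensen discs for the zeros of `L'` to the left of the line
`Re s = 6`; 2. equality of their number with the number of zeros of `Ξ_Δ` in the upper half plane, between any two
heights outside of the shadow; 3. exponentially small tails of the difference of the two numbers; 4. for every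
derivative of `L` the two-sided comparison of its zeros to the left of the line with the non-real zeros of `Ξ_Δ`. -/
theorem result : Differentiable ℂ L ∧ ∃ B : ℝ, 1 ≤ B ∧
    -- 1. Jensen discs
    (∀ s : ℂ, deriv L s = 0 → s.re < 6 → B ≤ s.im →
      ∃ z : ℂ, Xi z = 0 ∧ z.im ≠ 0 ∧ ‖s - ⟨6, z.re⟩‖ ≤ |z.im|) ∧
    -- 2. equality
    (∀ T₁ T₂ : ℝ, B ≤ T₁ → T₁ < T₂ → T₁ ∉ Shadow → T₂ ∉ Shadow → nonReal T₁ T₂ = left T₁ T₂) ∧
    -- 3. exponential tails
    (∀ T : ℝ, (NonReal B T).Finite ∧ (Left B T).Finite) ∧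
    (∃ c C : ℝ, 0 < c ∧ 0 < C ∧ ∀ l T : ℝ, 0 ≤ l → 0 ≤ T →
      volume {t : ℝ | B ≤ t ∧ t ≤ T ∧ l < |(left B t : ℝ) - nonReal B t|} ≤
        ENNReal.ofReal (C * Real.exp (-(c * l)) * T)) ∧
    -- 4. all derivatives
    ∀ k : ℕ, 1 ≤ k →
      (∃ C T₀ : ℝ, 0 < C ∧ 2 ≤ T₀ ∧ ∀ s : ℂ, iteratedDeriv k L s = 0 → s.re < 6 → T₀ ≤ s.im →
        (∃ z : ℂ, Xi z = 0 ∧ 6 - s.re ≤ |z.im| ∧ |z.re - s.im| ≤ C) ∧
        (s.re ≤ 6 - C / Real.log s.im → ∃ z : ℂ, Xi z = 0 ∧ z.im ≠ 0 ∧
          ‖s - ⟨6, z.re⟩‖ < |z.im| + C / Real.log s.im)) ∧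
      (∀ ε : ℝ, 0 < ε → ∃ R T₁ : ℝ, 0 < R ∧ ∀ z : ℂ, Xi z = 0 → T₁ ≤ z.re → ε ≤ |z.im| →
        ∃ s : ℂ, iteratedDeriv k L s = 0 ∧ |z.im| - ε < 6 - s.re ∧ |s.im - z.re| ≤ R) := by
  obtain ⟨X, Z, hG, hZ⟩ := Pool.Agent.N831.SD.pg_lam (N := 1) (k := 12) (by norm_num)
    Pool.Agent.Y771.NF.newf_delta
  have hL : ∀ s, L s = Z (s - (((6 : ℝ) - 1 / 2 : ℝ) : ℂ)) := by
    intro s
    have h1 := hZ s
    rw [lam_eq] at h1
    have e1 : (((6 : ℝ) - 1 / 2 : ℝ) : ℂ) = (((12 : ℕ) : ℂ) - 1) / 2 := by push_cast; norm_num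
    rw [e1, ← h1]
    unfold L
    simp
  have hκ : (1 : ℝ) / 2 ≤ 1 := by norm_num
  obtain ⟨B, hR⟩ := Pool.Agent.N831.SX.resX hκ hG.pq hL
  have hB := hR.B_one
  -- zeros of L to the right
  have hright : ∀ ρ : ℂ, L ρ = 0 → 6 < ρ.re → ∃ z : ℂ, Xi z = 0 ∧ z.im ≠ 0 ∧ z.re = ρ.im ∧ |z.im| = ρ.re - 6 := by
    intro ρ h1 h2
    refine ⟨-(I * (ρ - 6)), (zero_iff (Or.inr (by linarith))).1 h1, ?_, re_eq ρ, ?_⟩
    · rw [im_eq]
      linarith
    · rw [im_eq, abs_sub_comm, abs_of_pos (by linarith)]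
  refine ⟨L_diff, B, hB, ?_, ?_, ?_, ?_, fun k _ => ⟨?_, ?_⟩⟩
  · intro s h1 h2 h3
    obtain ⟨ρ, k1, k2, k3⟩ := hR.jen s h1 h2 h3
    obtain ⟨z, m1, m2, m3, m4⟩ := hright ρ k1 k2
    exact ⟨z, m1, m2, by rw [m3, m4]; exact k3⟩
  · intro T₁ T₂ h1 h2 h3 h4
    have key : ∀ T : ℝ, T ∉ Shadow → ∀ ρ : ℂ, L ρ = 0 → ρ.re - 6 ≤ |T - ρ.im| := by
      intro T hT ρ hρ
      rcases le_or_gt ρ.re 6 with h5 | h5
      · have := abs_nonneg (T - ρ.im)
        linarith
      · by_contra hcon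
        push Not at hcon
        obtain ⟨z, m1, m2, m3, m4⟩ := hright ρ hρ h5
        exact hT ⟨z, m1, by rw [m3, m4]; exact hcon⟩
    rw [nonReal_eq (by linarith)]
    exact hR.eqn T₁ T₂ h1 h2 (key _ h3) (key _ h4)
  · intro T
    refine ⟨?_, (hR.fin T).2⟩
    refine Set.Finite.of_finite_image (f := fun z : ℂ => 6 + I * z) (((hR.fin T).1).subset ?_) ?_
    · rintro s ⟨z, ⟨h1, h2, h3, h4⟩, rfl⟩
      have e1 : (6 + I * z).im = z.re := by simp
      have e2 : (6 + I * z).re = 6 - z.im := by simp [sub_eq_add_neg]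
      refine ⟨?_, ?_, ?_, ?_⟩
      · show L (6 + I * z) = 0
        rw [zero_iff (Or.inl (by rw [e1]; linarith))]
        have : -(I * (6 + I * z - 6)) = z := by
          rw [add_sub_cancel_left, ← mul_assoc, I_mul_I]
          ring
        rw [this]
        exact h1
      · show (6 + I * z).re < 6
        rw [e2]
        linarith
      · show B < (6 + I * z).im
        rw [e1]
        exact h3
      · show (6 + I * z).im ≤ T
        rw [e1]
        exact h4
    · intro z _ w _ hzw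
      exact mul_left_cancel₀ I_ne_zero (add_left_cancel hzw)
  · obtain ⟨c, C, hc, hC, h1⟩ := hR.tails
    refine ⟨c, C, hc, hC, fun l T hl hT => ?_⟩
    have e : ∀ t : ℝ, nonReal B t = Pool.Agent.N831.SX.NX L 6 B t := fun t => nonReal_eq (by linarith)
    simp only [e]
    exact h1 l T hl hT
  · obtain ⟨c, C, T₀, hc, hC, hT₀, g1, -, -, -⟩ := (hG.allX hκ hL k).left
    refine ⟨C, T₀ + C, hC, by linarith, fun s h1 h2 h3 => ?_⟩
    obtain ⟨⟨ρ, k1, k2, k3⟩, k4⟩ := g1 s h1 h2 (by linarith)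
    refine ⟨?_, fun h4 => ?_⟩
    · have h5 := (abs_le.1 k2).1
      have h6 : ρ.re ≤ s.re := by
        rcases k3 with k3 | k3
        · exact k3.le
        · rw [k3]
      refine ⟨-(I * (ρ - 6)), (zero_iff (Or.inl (by linarith))).1 k1, ?_, by rw [re_eq]; exact k2⟩
      rw [im_eq]
      exact le_trans (by linarith) (le_abs_self _)
    · obtain ⟨ρ', m1, m2, m3⟩ := k4 h4
      obtain ⟨z, n1, n2, n3, n4⟩ := hright ρ' m1 m2
      exact ⟨z, n1, n2, by rw [n3, n4]; exact m3⟩
  · intro ε hε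
    obtain ⟨R, T₁, hR', h1⟩ := (hG.allX hκ hL k).right ε hε
    refine ⟨R, max T₁ 1, hR', fun z h2 h3 h4 => ?_⟩
    have h31 : T₁ ≤ z.re := (le_max_left _ _).trans h3
    have h32 : 1 ≤ z.re := (le_max_right _ _).trans h3
    -- the zero in the upper half plane
    obtain ⟨w, hw, hwr, hwi⟩ : ∃ w : ℂ, Xi w = 0 ∧ w.re = z.re ∧ w.im = |z.im| := by
      rcases le_or_gt 0 z.im with h5 | h5
      · exact ⟨z, h2, rfl, (abs_of_nonneg h5).symm⟩
      · refine ⟨(starRingEnd ℂ) z, by rw [Xi_conj, h2, map_zero], by simp, ?_⟩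
        rw [abs_of_neg h5]
        simp
    have e1 : (6 + I * w).im = w.re := by simp
    have e2 : (6 + I * w).re = 6 - w.im := by simp [sub_eq_add_neg]
    have e3 : L (6 + I * w) = 0 := by
      rw [zero_iff (Or.inl (by rw [e1]; linarith))]
      have : -(I * (6 + I * w - 6)) = w := by
        rw [add_sub_cancel_left, ← mul_assoc, I_mul_I]
        ring
      rw [this]
      exact hw
    obtain ⟨s, k1, k2, k3⟩ := h1 (6 + I * w) e3 (by rw [e1, hwr]; exact h31) (by rw [e2, hwi]; linarith)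
    rw [e1, hwr] at k3
    rw [e2, hwi] at k2
    exact ⟨s, k1, by linarith, k3⟩

end Pool.Agent.N831.Shelf.Speisercd509c
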